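import Pool.Agent.Helper294.FGD.Free

/-! Subalgebras of free algebras whose leading forms are the common kernel of graded operators. -/

namespace Pool.Agent.Helper294.FGD

open Pool.Agent.Helper294.FG
open Polynomial

universe u v z
variable {k : Type u} [Field k] {X : Type v} {w : X → ℕ}

/-- the natural map of the graded fixed ring is graded -/
lemma Lf_coeff {G : Set (FreeAlgebra k X →ₗ[k] FreeAlgebra k X)} (f : FreeAlgebra k (Ix w G)) (n : ℕ) :
    (ph w (Lf w G f)).coeff n = Lf w G ((ph (fun i : Ix w G => i.1 + 1) f).coeff n) := by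
  have h : (ph w).comp (Lf w G) = (mapAlgHom (Lf w G)).comp (ph (fun i : Ix w G => i.1 + 1)) := by
    apply FreeAlgebra.hom_ext
    funext i
    simp only [Function.comp_apply, AlgHom.comp_apply]
    rw [Lf_ι, ph_ι, show ph w (yy w G i) = monomial (i.1 + 1) (yy w G i) from (yy_mem w G i).2]
    simp [Lf_ι]
  have h2 : ph w (Lf w G f) = mapAlgHom (Lf w G) (ph (fun i : Ix w G => i.1 + 1) f) := DFunLike.congr_fun h f
  rw [h2]
  simp

/-- Main theorem: a subalgebra whose leading forms are exactly the fixed homogeneous elements of a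
set of graded endomorphisms is free. -/
theorem free_of_leading (hw : ∀ x, 0 < w x) (R : Subalgebra k (FreeAlgebra k X))
    (G : Set (FreeAlgebra k X →ₗ[k] FreeAlgebra k X))
    (hG : Good w G)
    (h1 : ∀ r ∈ R, ∀ n, Le w n r → Fixed G ((ph w r).coeff n))
    (h2 : ∀ n, ∀ s ∈ Sn w G n, ∃ r ∈ R, Le w n r ∧ (ph w r).coeff n = s) :
    ∃ y : Ix w G → R, Function.Bijective (FreeAlgebra.lift k y) := by
  have hz : ∀ i : Ix w G, ∃ r ∈ R, Le w (i.1 + 1) r ∧ (ph w r).coeff (i.1 + 1) = yy w G i :=
    fun i => h2 _ _ (yy_mem w G i)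
  choose z hzR hzL hzc using hz
  let y : Ix w G → R := fun i => ⟨z i, hzR i⟩
  let ψ : FreeAlgebra k (Ix w G) →ₐ[k] FreeAlgebra k X := FreeAlgebra.lift k z
  have hψι : ∀ i, ψ (FreeAlgebra.ι k i) = z i := fun i => by simp [ψ]
  have hψ : ∀ i : Ix w G, Le w (i.1 + 1) (ψ (FreeAlgebra.ι k i)) := fun i => by rw [hψι]; exact hzL i
  have hlead : lead w (fun i : Ix w G => i.1 + 1) ψ = Lf w G := by
    apply FreeAlgebra.hom_ext
    funext i
    simp only [Function.comp_apply]
    rw [lead_ι, hψι, hzc, Lf_ι]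
  have hval : ∀ f : FreeAlgebra k (Ix w G), ((FreeAlgebra.lift k y f : R) : FreeAlgebra k X) = ψ f := by
    intro f
    have h1 : R.val.comp (FreeAlgebra.lift k y) = ψ := by
      apply FreeAlgebra.hom_ext
      funext i
      simp [ψ, y]
    exact DFunLike.congr_fun h1 f
  refine ⟨y, ?_, ?_⟩
  · rw [injective_iff_map_eq_zero]
    intro f hf
    have hf' : ψ f = 0 := by rw [← hval, hf]; rfl
    by_contra hne
    set δ' : Ix w G → ℕ := fun i => i.1 + 1 with hδ'
    have h3 : ph δ' f ≠ 0 := fun h => hne (ph_injective h)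
    have h4 := (lead_Le (δ := δ') ψ hψ (le_refl (ph δ' f).natDegree : Le δ' (ph δ' f).natDegree f)).2
    rw [hf', map_zero, coeff_zero, hlead] at h4
    obtain ⟨n, hn⟩ := exists_Fl (star ((ph δ' f).coeff (ph δ' f).natDegree))
    have h5 := Lf_inj hw hG (n + 1) _ hn h4.symm
    exact h3 (leadingCoeff_eq_zero.1 h5)
  · have key : ∀ n, ∀ r ∈ R, Le w n r → ∃ f, ψ f = r := by
      intro n
      induction n with
      | zero =>
        intro r _ hr
        exact ⟨algebraMap k _ (ep r), by rw [AlgHom.commutes]; exact (Le_zero hw hr).symm⟩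
      | succ n ih =>
        intro r hr hle
        have h3 := h1 r hr _ hle
        obtain ⟨h, hh⟩ := Lf_surj_n hw hG (n + 1) _ ⟨h3, Hm_coeff r (n + 1)⟩
        set δ' : Ix w G → ℕ := fun i => i.1 + 1 with hδ'
        set h' := (ph δ' h).coeff (n + 1) with hh'
        have hh2 : Lf w G h' = (ph w r).coeff (n + 1) := by
          rw [hh', ← Lf_coeff, show Lf w G h = (ph w r).coeff (n + 1) from hh, coeff_Hm (Hm_coeff r (n + 1)), if_pos rfl]
        have hhm : Hm δ' (n + 1) h' := Hm_coeff h (n + 1)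
        have h4 := lead_Le (δ := δ') ψ hψ hhm.le
        rw [hlead, coeff_Hm hhm, if_pos rfl, hh2] at h4
        have hψR : ψ h' ∈ R := by rw [← hval]; exact (FreeAlgebra.lift k y h').2
        have h5 : Le w n (r - ψ h') := by
          apply Le_pred (hle.sub h4.1)
          rw [map_sub, coeff_sub, h4.2, sub_self]
        obtain ⟨f, hf⟩ := ih (r - ψ h') (R.sub_mem hr hψR) h5
        exact ⟨f + h', by rw [map_add, hf, sub_add_cancel]⟩
    intro r
    obtain ⟨f, hf⟩ := key _ r r.2 (le_refl (ph w (r : FreeAlgebra k X)).natDegree)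
    exact ⟨f, Subtype.ext (by rw [hval]; exact hf)⟩

end Pool.Agent.Helper294.FGD
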