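import Pool.Agent.Helper294.FG.Filtered

/-! The common kernel of a set of graded operators of derivation type on a free algebra is free. -/

namespace Pool.Agent.Helper294.FGD

open Pool.Agent.Helper294.FG

open Polynomial

universe u v
variable {k : Type u} [Field k] {X : Type v} {w : X → ℕ}

/-- operators of derivation type, graded -/
structure Good (w : X → ℕ) (G : Set (FreeAlgebra k X →ₗ[k] FreeAlgebra k X)) : Prop where
  mul : ∀ d ∈ G, ∀ a b, d a = 0 → d (a * b) = a * d b
  const : ∀ d ∈ G, ∀ c : k, d (algebraMap k (FreeAlgebra k X) c) = 0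
  gr : ∀ d ∈ G, ∃ e : ℕ, ∀ n f, Hm w n f → (e ≤ n → Hm w (n - e) (d f)) ∧ (n < e → d f = 0)

/-- the common kernel -/
def Fixed (G : Set (FreeAlgebra k X →ₗ[k] FreeAlgebra k X)) (f : FreeAlgebra k X) : Prop :=
  ∀ d ∈ G, d f = 0

lemma Fixed.zero (G : Set (FreeAlgebra k X →ₗ[k] FreeAlgebra k X)) : Fixed G 0 := fun g _ => map_zero g
lemma Fixed.add {G : Set (FreeAlgebra k X →ₗ[k] FreeAlgebra k X)} {a b : FreeAlgebra k X}
    (ha : Fixed G a) (hb : Fixed G b) : Fixed G (a + b) := fun g hg => by rw [map_add, ha g hg, hb g hg, add_zero]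
lemma Fixed.mul {G : Set (FreeAlgebra k X →ₗ[k] FreeAlgebra k X)} (hG : Good w G) {a b : FreeAlgebra k X}
    (ha : Fixed G a) (hb : Fixed G b) : Fixed G (a * b) :=
  fun g hg => by rw [hG.mul g hg a b (ha g hg), hb g hg, mul_zero]

variable (w) (G : Set (FreeAlgebra k X →ₗ[k] FreeAlgebra k X))

/-- homogeneous fixed elements -/
def Sn (n : ℕ) : Submodule k (FreeAlgebra k X) where
  carrier := {f | Fixed G f ∧ Hm w n f}
  add_mem' := fun ha hb => ⟨ha.1.add hb.1, ha.2.add hb.2⟩
  zero_mem' := ⟨Fixed.zero G, Hm.zero n⟩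
  smul_mem' := fun c f hf => ⟨fun g hg => by rw [map_smul, hf.1 g hg, smul_zero], hf.2.smul c⟩

/-- decomposable elements -/
def Dn (n : ℕ) : Submodule k (FreeAlgebra k X) :=
  Submodule.span k {f | ∃ i j a b, 0 < i ∧ 0 < j ∧ i + j = n ∧ a ∈ Sn w G i ∧ b ∈ Sn w G j ∧ f = a * b}

lemma Dn_le (hG : Good w G) (n : ℕ) : Dn w G n ≤ Sn w G n := by
  apply Submodule.span_le.2
  rintro f ⟨i, j, a, b, _, _, rfl, ha, hb, rfl⟩
  exact ⟨ha.1.mul hG hb.1, ha.2.mul hb.2⟩

/-- a complement -/
noncomputable def Cp (n : ℕ) : Submodule k (FreeAlgebra k X) :=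
  Classical.choose (Submodule.exists_isCompl (Dn w G n))

lemma Cp_compl (n : ℕ) : IsCompl (Dn w G n) (Cp w G n) :=
  Classical.choose_spec (Submodule.exists_isCompl (Dn w G n))

noncomputable def Cn (n : ℕ) : Submodule k (FreeAlgebra k X) := Cp w G n ⊓ Sn w G n

/-- index set of the free generators -/
abbrev Ix : Type (max u v) := Σ n : ℕ, Module.Basis.ofVectorSpaceIndex k (Cn w G (n + 1))

noncomputable def bs (n : ℕ) := Module.Basis.ofVectorSpace k (Cn w G (n + 1))

/-- the free generators -/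
noncomputable def yy (i : Ix w G) : FreeAlgebra k X := (bs w G i.1 i.2 : Cn w G (i.1 + 1))

lemma yy_mem (i : Ix w G) : yy w G i ∈ Sn w G (i.1 + 1) := (bs w G i.1 i.2).2.2

open Classical in
noncomputable def bv (m : ℕ) (i : Ix w G) : Cn w G (m + 1) :=
  if h : i.1 = m then bs w G m (h ▸ i.2) else 0

lemma bv_coe (m : ℕ) (i : Ix w G) : (bv w G m i : FreeAlgebra k X) = if i.1 = m then yy w G i else 0 := by
  obtain ⟨n, j⟩ := i
  by_cases h : n = m
  · subst h; simp [bv, yy]
  · simp [bv, h]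

lemma bv_coord (i0 : Ix w G) (i : Ix w G) (h : i ≠ i0) : (bs w G i0.1).coord i0.2 (bv w G i0.1 i) = 0 := by
  obtain ⟨n, j⟩ := i
  obtain ⟨m, j0⟩ := i0
  by_cases hn : n = m
  · subst hn
    have hj : j ≠ j0 := fun hj => h (by rw [hj])
    simp only [bv, dif_pos]
    rw [Module.Basis.coord_apply, Module.Basis.repr_self, Finsupp.single_eq_of_ne (Ne.symm hj)]
  · simp [bv, hn]

lemma Y3 (i0 : Ix w G) (T : Finset (Ix w G)) (hT : i0 ∉ T) (c : Ix w G → k)
    (h : yy w G i0 - ∑ i ∈ T, (if i.1 = i0.1 then c i • yy w G i else 0) ∈ Dn w G (i0.1 + 1)) : False := by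
  let v : Cn w G (i0.1 + 1) := bs w G i0.1 i0.2 - ∑ i ∈ T, c i • bv w G i0.1 i
  have hv : (v : FreeAlgebra k X) = yy w G i0 - ∑ i ∈ T, (if i.1 = i0.1 then c i • yy w G i else 0) := by
    simp only [v, Submodule.coe_sub, Submodule.coe_sum, Submodule.coe_smul, bv_coe]
    congr 1
    refine Finset.sum_congr rfl fun i _ => ?_
    split_ifs
    · rfl
    · exact smul_zero _
  rw [← hv] at h
  have h0 : (v : FreeAlgebra k X) = 0 :=
    Submodule.disjoint_def.1 (Cp_compl w G (i0.1 + 1)).disjoint _ h v.2.1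
  have h1 : v = 0 := Subtype.ext h0
  have h2 := congrArg ((bs w G i0.1).coord i0.2) h1
  simp only [v, map_sub, map_sum, map_smul, map_zero] at h2
  rw [Finset.sum_eq_zero, Module.Basis.coord_apply, Module.Basis.repr_self, Finsupp.single_eq_same, sub_zero] at h2
  · exact one_ne_zero h2
  · intro i hi
    rw [bv_coord w G i0 i (fun h => hT (h ▸ hi)), smul_zero]

lemma Y2 (hG : Good w G) (n : ℕ) (s : FreeAlgebra k X) (hs : s ∈ Sn w G (n + 1)) :
    s ∈ Submodule.span k (Set.range (yy w G)) ⊔ Dn w G (n + 1) := by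
  have h1 : s ∈ Dn w G (n + 1) ⊔ Cp w G (n + 1) := by
    rw [(Cp_compl w G (n + 1)).sup_eq_top]; trivial
  obtain ⟨d, hd, c, hc, rfl⟩ := Submodule.mem_sup.1 h1
  have hcS : c ∈ Sn w G (n + 1) := by
    have := (Sn w G (n + 1)).sub_mem hs (Dn_le w G hG _ hd)
    simpa using this
  have hcomm : d + c = c + d := add_comm d c
  rw [hcomm]
  refine Submodule.add_mem_sup ?_ hd
  have h2 := (bs w G n).mem_span ⟨c, hc, hcS⟩
  have h3 := Submodule.mem_map_of_mem (f := (Cn w G (n + 1)).subtype) h2
  rw [Submodule.map_span] at h3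
  refine Submodule.span_mono ?_ h3
  rintro _ ⟨_, ⟨j, rfl⟩, rfl⟩
  exact ⟨⟨n, j⟩, rfl⟩

variable {w G}

/-- independence of the generators, homogeneous form -/
lemma indep (hw : ∀ x, 0 < w x) (hG : Good w G) :
    ∀ (T : Finset (Ix w G)) (m : ℕ) (b : Ix w G → FreeAlgebra k X),
      (∀ i ∈ T, (i.1 + 1 ≤ m → Hm w (m - (i.1 + 1)) (b i)) ∧ (m < i.1 + 1 → b i = 0)) →
      ∑ i ∈ T, yy w G i * b i = 0 → ∀ i ∈ T, b i = 0 := by
  classical
  intro T
  induction T using Finset.strongInduction with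
  | H T ih =>
  intro m b hb hrel
  by_contra hne
  push Not at hne
  obtain ⟨i1, hi1, hne1⟩ := hne
  by_cases hz : ∃ j ∈ T, b j = 0
  · obtain ⟨j, hj, hbj⟩ := hz
    have hrel' : ∑ i ∈ T.erase j, yy w G i * b i = 0 := by
      rw [← Finset.add_sum_erase T _ hj, hbj, mul_zero, zero_add] at hrel
      exact hrel
    have hij : i1 ≠ j := by rintro rfl; exact hne1 hbj
    exact hne1 (ih (T.erase j) (Finset.erase_ssubset hj) m b
      (fun i hi => hb i (Finset.mem_of_mem_erase hi)) hrel' i1 (Finset.mem_erase.2 ⟨hij, hi1⟩))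
  · push Not at hz
    have hle : ∀ i ∈ T, i.1 + 1 ≤ m := by
      intro i hi
      by_contra hlt
      exact hz i hi ((hb i hi).2 (by omega))
    obtain ⟨i0, hi0, hmax⟩ := Finset.exists_max_image T (fun i => i.1 + 1) ⟨i1, hi1⟩
    obtain ⟨h, hh, hy⟩ := WA hw (yy w G) (fun i => i.1 + 1) T i0 hi0 hmax (m - (i0.1 + 1)) b
      (fun i hi => by
        have h1 := (hb i hi).1 (hle i hi)
        have h2 := hle i0 hi0
        have h3 := hmax i hi
        have h4 : m - (i.1 + 1) = m - (i0.1 + 1) + (i0.1 + 1 - (i.1 + 1)) := by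
          omega
        rwa [h4] at h1) hrel (hz i0 hi0)
    have hfix : ∀ i ∈ T.erase i0, Fixed G (h i) := by
      intro i hi g hg
      obtain ⟨e, he⟩ := hG.gr g hg
      refine ih (T.erase i0) (Finset.erase_ssubset hi0) (i0.1 + 1 - e) (fun i => g (h i))
        (fun i hi => ?_) ?_ i hi
      · have hiT := Finset.mem_of_mem_erase hi
        have h6 := he _ _ (hh i hiT)
        have hm : i.1 + 1 ≤ i0.1 + 1 := hmax i hiT
        refine ⟨fun hle => ?_, fun hlt => h6.2 (by omega)⟩
        have h7 := h6.1 (by omega)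
        have h8 : i0.1 + 1 - (i.1 + 1) - e = i0.1 + 1 - e - (i.1 + 1) := by omega
        rwa [h8] at h7
      · have h6 : g (yy w G i0) = 0 := (yy_mem w G i0).1 g hg
        rw [hy, map_sum] at h6
        rw [← h6]
        refine Finset.sum_congr rfl fun i _ => ?_
        exact (hG.mul g hg _ _ ((yy_mem w G i).1 g hg)).symm
    refine Y3 w G i0 (T.erase i0) (Finset.notMem_erase i0 T) (fun i => ep (h i)) ?_
    rw [hy, ← Finset.sum_sub_distrib]
    refine Submodule.sum_mem _ fun i hi => ?_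
    have hiT := Finset.mem_of_mem_erase hi
    have h7 := hh i hiT
    have h8 := hmax i hiT
    by_cases hd : i.1 = i0.1
    · rw [if_pos hd]
      rw [hd, Nat.sub_self] at h7
      rw [h7.eq_const hw, ← Algebra.commutes, ← Algebra.smul_def, AlgHom.commutes]
      simp
    · rw [if_neg hd, sub_zero]
      apply Submodule.subset_span
      exact ⟨i.1 + 1, i0.1 + 1 - (i.1 + 1), _, _, by omega, by omega, by omega, yy_mem w G i,
        ⟨hfix i hi, h7⟩, rfl⟩

/-- independence of the generators, general form -/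
lemma indep' (hw : ∀ x, 0 < w x) (hG : Good w G)
    (T : Finset (Ix w G)) (a : Ix w G → FreeAlgebra k X)
    (hrel : ∑ i ∈ T, yy w G i * a i = 0) : ∀ i ∈ T, a i = 0 := by
  classical
  intro i hi
  apply ph_injective (w := w)
  apply Polynomial.ext
  intro n
  rw [coeff_zero]
  have h1 := indep hw hG T (n + (i.1 + 1))
    (fun j => if j.1 + 1 ≤ n + (i.1 + 1) then (ph w (a j)).coeff (n + (i.1 + 1) - (j.1 + 1)) else 0)
    (fun j _ => ⟨fun hle => by simp only [if_pos hle]; exact Hm_coeff _ _,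
      fun hlt => if_neg (by omega)⟩)
    (by
      have h2 := congrArg (fun f => (ph w f).coeff (n + (i.1 + 1))) hrel
      simp only [map_zero, coeff_zero, map_sum, finsetSum_coeff] at h2
      refine Eq.trans (Finset.sum_congr rfl fun j _ => ?_) h2
      have h3 : ph w (yy w G j) = C (yy w G j) * Polynomial.X ^ (j.1 + 1) := by
        rw [C_mul_X_pow_eq_monomial]; exact (yy_mem w G j).2
      rw [map_mul, h3, mul_assoc, coeff_C_mul, coeff_X_pow_mul'])
    i hi
  simp only [if_pos (Nat.le_add_left (i.1 + 1) n), Nat.add_sub_cancel] at h1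
  exact h1

/-- the natural map from the free algebra on the generators -/
noncomputable def Lf (w : X → ℕ) (G : Set (FreeAlgebra k X →ₗ[k] FreeAlgebra k X)) :
    FreeAlgebra k (Ix w G) →ₐ[k] FreeAlgebra k X :=
  FreeAlgebra.lift k (yy w G)

lemma Lf_ι (i : Ix w G) : Lf w G (FreeAlgebra.ι k i) = yy w G i := by simp [Lf]

lemma Lf_inj (hw : ∀ x, 0 < w x) (hG : Good w G) :
    ∀ (n : ℕ) (f : FreeAlgebra k (Ix w G)), Fl n (star f) → Lf w G f = 0 → f = 0 := by
  intro n
  induction n with
  | zero =>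
    intro f hf _
    have : star f = 0 := hf
    simpa using this
  | succ n ih =>
    intro f hf h0
    obtain ⟨c, hc, e⟩ := expand (star f)
    have e2 : f = algebraMap k _ (ep f) + ∑ i ∈ c.support, FreeAlgebra.ι k i * star (c i) := by
      have h1 := congrArg star e
      rw [star_star, star_add, FreeAlgebra.star_algebraMap, ep_star] at h1
      refine h1.trans ?_
      congr 1
      rw [Finsupp.sum, star_sum]
      refine Finset.sum_congr rfl fun i _ => ?_
      rw [star_mul, FreeAlgebra.star_ι]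
    have h2 : algebraMap k (FreeAlgebra k X) (ep f) + ∑ i ∈ c.support, yy w G i * Lf w G (star (c i)) = 0 := by
      refine Eq.trans ?_ h0
      conv_rhs => rw [e2]
      rw [map_add, AlgHom.commutes, map_sum]
      congr 1
      refine Finset.sum_congr rfl fun i _ => ?_
      rw [map_mul, Lf_ι]
    have h3 : ep f = 0 := by
      have h4 := congrArg ep h2
      rw [map_add, map_sum, map_zero, AlgHom.commutes] at h4
      rw [Finset.sum_eq_zero] at h4
      · simpa using h4
      · intro i _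
        rw [map_mul, ep_Hm hw (Nat.succ_pos _) (yy_mem w G i).2, zero_mul]
    rw [h3, map_zero, zero_add] at h2
    have h5 := indep' hw hG c.support (fun i => Lf w G (star (c i))) h2
    have h6 : c = 0 := by
      ext i
      by_contra hne
      have hi : i ∈ c.support := by rw [Finsupp.mem_support_iff]; exact hne
      have h7 := ih (star (c i)) (by rw [star_star, hc]; exact hf i) (h5 i hi)
      apply hne
      simpa using h7
    rw [e2, h3, h6]
    simp

lemma Lf_surj_n (hw : ∀ x, 0 < w x) (hG : Good w G) : ∀ (n : ℕ) (s : FreeAlgebra k X), s ∈ Sn w G n → s ∈ (Lf w G).range := by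
  intro n
  induction n using Nat.strong_induction_on with
  | _ n ih =>
  intro s hs
  cases n with
  | zero =>
    rw [hs.2.eq_const hw]
    exact Subalgebra.algebraMap_mem _ _
  | succ n =>
    have h1 := Y2 w G hG n s hs
    have h2 : Submodule.span k (Set.range (yy w G)) ⊔ Dn w G (n + 1) ≤ Subalgebra.toSubmodule (Lf w G).range := by
      apply sup_le
      · apply Submodule.span_le.2
        rintro _ ⟨i, rfl⟩
        exact ⟨FreeAlgebra.ι k i, Lf_ι i⟩
      · apply Submodule.span_le.2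
        rintro _ ⟨i, j, a, b, hi, hj, hij, ha, hb, rfl⟩
        exact (Lf w G).range.mul_mem (ih i (by omega) a ha) (ih j (by omega) b hb)
    exact h2 h1

end Pool.Agent.Helper294.FGD
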