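import Pool.Agent.Helper294.FGD.Filtered

/-! Automorphisms of prime order in the same characteristic with a translation part. -/

namespace Pool.Agent.Helper294.FGD

open Pool.Agent.Helper294.FG
open Polynomial

universe u v
variable {k : Type u} [Field k] {X : Type v} {w : X → ℕ}
variable (σ : FreeAlgebra k X →ₐ[k] FreeAlgebra k X)

/-- `σ` is unipotent for the weight filtration -/
def Uni (w : X → ℕ) (σ : FreeAlgebra k X →ₐ[k] FreeAlgebra k X) : Prop :=
  ∀ x, Le w (w x - 1) (σ (FreeAlgebra.ι k x) - FreeAlgebra.ι k x)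

variable {σ}

lemma Uni.le (hw : ∀ x, 0 < w x) (h : Uni w σ) (x : X) : Le w (w x) (σ (FreeAlgebra.ι k x)) := by
  have h1 := ((h x).mono (Nat.sub_le _ 1)).add (Hm.ι (k := k) (w := w) x).le
  rwa [sub_add_cancel] at h1

lemma Uni.coeff (hw : ∀ x, 0 < w x) (h : Uni w σ) (x : X) :
    (ph w (σ (FreeAlgebra.ι k x))).coeff (w x) = FreeAlgebra.ι k x := by
  have h1 := (h x).coeff (m := w x) (by have := hw x; omega)
  rw [map_sub, coeff_sub, sub_eq_zero, coeff_Hm (Hm.ι x), if_pos rfl] at h1
  exact h1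

lemma Uni.lead (hw : ∀ x, 0 < w x) (h : Uni w σ) : lead w w σ = AlgHom.id k _ := by
  apply FreeAlgebra.hom_ext
  funext x
  simp only [Function.comp_apply]
  rw [lead_ι, h.coeff hw]; rfl

variable (w σ)

/-- the homogenised automorphism -/
noncomputable def Sg : FreeAlgebra k X →ₐ[k] (FreeAlgebra k X)[X] :=
  FreeAlgebra.lift k (fun x => reflect (w x) (ph w (σ (FreeAlgebra.ι k x))))

variable {w σ}

lemma Sg_ι (x : X) : Sg w σ (FreeAlgebra.ι k x) = reflect (w x) (ph w (σ (FreeAlgebra.ι k x))) := by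
  simp [Sg]

lemma Sg_comp (hw : ∀ x, 0 < w x) (h : Uni w σ) (f : FreeAlgebra k X) :
    ∀ n, Le w n (σ ((ph w f).coeff n)) ∧
      ∀ m, (Sg w σ ((ph w f).coeff n)).coeff m = (ph w (σ ((ph w f).coeff n))).coeff (revAt n m) := by
  induction f using FreeAlgebra.induction with
  | grade0 r =>
    intro n
    rw [ph_algebraMap, coeff_monomial]
    split_ifs with h0
    · subst h0
      have e1 : σ (algebraMap k (FreeAlgebra k X) r) = algebraMap k (FreeAlgebra k X) r := σ.commutes r
      have e2 : Sg w σ (algebraMap k (FreeAlgebra k X) r) = monomial 0 (algebraMap k (FreeAlgebra k X) r) := by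
        rw [AlgHom.commutes, monomial_zero_left]; rfl
      rw [e1, e2, ph_algebraMap]
      refine ⟨(Hm.const r).le, fun m => ?_⟩
      rw [coeff_monomial, coeff_monomial]
      rcases Nat.eq_zero_or_pos m with hm | hm
      · subst hm; simp
      · rw [if_neg (by omega), if_neg]
        rw [revAt_eq_self_of_lt hm]
        omega
    · rw [map_zero, map_zero, map_zero]; exact ⟨Le.zero n, fun m => by simp⟩
  | grade1 x =>
    intro n
    rw [ph_ι, coeff_monomial]
    split_ifs with h0
    · subst h0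
      exact ⟨h.le hw x, fun m => by rw [Sg_ι, coeff_reflect]⟩
    · rw [map_zero, map_zero, map_zero]; exact ⟨Le.zero n, fun m => by simp⟩
  | mul a b ha hb =>
    intro n
    rw [map_mul, coeff_mul, map_sum, map_sum, map_sum]
    constructor
    · apply Le.sum
      rintro ⟨i, j⟩ hij
      rw [Finset.HasAntidiagonal.mem_antidiagonal] at hij
      rw [← hij, map_mul]
      exact (ha i).1.mul (hb j).1
    · intro m
      rw [finsetSum_coeff, finsetSum_coeff]
      refine Finset.sum_congr rfl ?_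
      rintro ⟨i, j⟩ hij
      rw [Finset.HasAntidiagonal.mem_antidiagonal] at hij
      simp only at hij ⊢
      have e1 : Sg w σ ((ph w a).coeff i) = reflect i (ph w (σ ((ph w a).coeff i))) := by
        apply Polynomial.ext; intro m; rw [(ha i).2 m, coeff_reflect]
      have e2 : Sg w σ ((ph w b).coeff j) = reflect j (ph w (σ ((ph w b).coeff j))) := by
        apply Polynomial.ext; intro m; rw [(hb j).2 m, coeff_reflect]
      rw [← hij, map_mul, map_mul, map_mul, e1, e2, ← reflect_mul _ _ (ha i).1 (hb j).1, coeff_reflect]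
  | add a b ha hb =>
    intro n
    rw [map_add, coeff_add, map_add, map_add, map_add]
    exact ⟨(ha n).1.add (hb n).1, fun m => by rw [coeff_add, coeff_add, (ha n).2, (hb n).2]⟩

lemma Sg_zero (hw : ∀ x, 0 < w x) (h : Uni w σ) (f : FreeAlgebra k X) : (Sg w σ f).coeff 0 = f := by
  induction f using FreeAlgebra.induction with
  | grade0 r =>
    have e2 : Sg w σ (algebraMap k (FreeAlgebra k X) r) = monomial 0 (algebraMap k (FreeAlgebra k X) r) := by
      rw [AlgHom.commutes, monomial_zero_left]; rfl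
    rw [e2, coeff_monomial, if_pos rfl]
  | grade1 x => rw [Sg_ι, coeff_reflect, revAt_le (Nat.zero_le _), Nat.sub_zero, h.coeff hw]
  | mul a b ha hb => rw [map_mul, mul_coeff_zero, ha, hb]
  | add a b ha hb => rw [map_add, coeff_add, ha, hb]

variable (w σ)

/-- the derivation of degree one -/
noncomputable def De : FreeAlgebra k X →ₗ[k] FreeAlgebra k X where
  toFun f := (Sg w σ f).coeff 1
  map_add' a b := by rw [map_add, coeff_add]
  map_smul' c a := by rw [map_smul, coeff_smul]; rfl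

variable {w σ}

lemma De_apply (f : FreeAlgebra k X) : De w σ f = (Sg w σ f).coeff 1 := rfl

lemma De_mul (hw : ∀ x, 0 < w x) (h : Uni w σ) (a b : FreeAlgebra k X) :
    De w σ (a * b) = a * De w σ b + De w σ a * b := by
  rw [De_apply, map_mul, mul_coeff_one, Sg_zero hw h, Sg_zero hw h]; rfl

lemma De_const (c : k) : De w σ (algebraMap k (FreeAlgebra k X) c) = 0 := by
  have e2 : Sg w σ (algebraMap k (FreeAlgebra k X) c) = monomial 0 (algebraMap k (FreeAlgebra k X) c) := by
    rw [AlgHom.commutes, monomial_zero_left]; rfl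
  rw [De_apply, e2, coeff_monomial, if_neg (by omega)]

lemma De_Hm (hw : ∀ x, 0 < w x) (h : Uni w σ) {n : ℕ} {f : FreeAlgebra k X} (hf : Hm w (n + 1) f) :
    De w σ f = (ph w (σ f)).coeff n := by
  have h1 := (Sg_comp hw h f (n + 1)).2 1
  rw [coeff_Hm hf, if_pos rfl, revAt_le (by omega)] at h1
  exact h1

lemma De_good (hw : ∀ x, 0 < w x) (h : Uni w σ) : Good w {De w σ} where
  mul := by
    rintro _ rfl a b ha
    rw [De_mul hw h, ha, zero_mul, add_zero]
  const := by
    rintro _ rfl c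
    exact De_const c
  gr := by
    rintro _ rfl
    refine ⟨1, fun n f hf => ⟨fun hn => ?_, fun hn => ?_⟩⟩
    · obtain ⟨m, rfl⟩ : ∃ m, n = m + 1 := ⟨n - 1, by omega⟩
      rw [De_Hm hw h hf]
      exact Hm_coeff _ _
    · have h0 : n = 0 := by omega
      subst h0
      rw [hf.eq_const hw]
      exact De_const _

/-- all components of weight at least `N` vanish -/
def Lt (w : X → ℕ) (N : ℕ) (f : FreeAlgebra k X) : Prop := ∀ m, N ≤ m → (ph w f).coeff m = 0

lemma Lt.zero (N : ℕ) : Lt w N (0 : FreeAlgebra k X) := fun m _ => by simp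
lemma Lt.eq_zero {f : FreeAlgebra k X} (h : Lt w 0 f) : f = 0 := by
  apply ph_injective (w := w)
  apply Polynomial.ext
  intro m
  rw [h m (Nat.zero_le _), coeff_zero]
lemma Lt.le {N : ℕ} {f : FreeAlgebra k X} (h : Lt w (N + 1) f) : Le w N f := by
  rw [Le, natDegree_le_iff_coeff_eq_zero]
  intro m hm
  exact h m hm

lemma Lt.delta (hw : ∀ x, 0 < w x) (h : Uni w σ) {N : ℕ} {f : FreeAlgebra k X} (hf : Lt w N f) :
    Lt w (N - 1) (σ f - f) := by
  cases N with
  | zero => rw [hf.eq_zero, map_zero, sub_zero]; exact Lt.zero _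
  | succ N =>
    have h1 := lead_Le σ (h.le hw) hf.le
    rw [h.lead hw] at h1
    intro m hm
    rw [map_sub, coeff_sub]
    rcases eq_or_lt_of_le hm with h2 | h2
    · rw [← h2]
      simp only [Nat.add_sub_cancel]
      rw [h1.2]
      exact sub_self _
    · rw [h1.1.coeff (by omega), hf.le.coeff (by omega), sub_zero]

lemma Lt.mul {N j : ℕ} {a b : FreeAlgebra k X} (ha : Le w j a) (hb : Lt w N b) : Lt w (N + j) (a * b) := by
  cases N with
  | zero => rw [hb.eq_zero, mul_zero]; exact Lt.zero _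
  | succ N =>
    intro m hm
    exact (ha.mul hb.le).coeff (by omega)

lemma delta_Hm (hw : ∀ x, 0 < w x) (h : Uni w σ) {n : ℕ} {s : FreeAlgebra k X} (hs : Hm w n s)
    (hD : De w σ s = 0) : Lt w (n - 1) (σ s - s) := by
  cases n with
  | zero =>
    rw [hs.eq_const hw]
    have e1 : σ (algebraMap k (FreeAlgebra k X) (ep s)) = algebraMap k (FreeAlgebra k X) (ep s) := σ.commutes _
    rw [e1, sub_self]
    exact Lt.zero _
  | succ n =>
    have h1 := lead_Le σ (h.le hw) hs.le
    rw [h.lead hw] at h1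
    intro m hm
    simp only [Nat.add_sub_cancel] at hm
    rw [map_sub, coeff_sub]
    rcases eq_or_lt_of_le hm with h2 | h2
    · rw [← h2, ← De_Hm hw h hs, hD, coeff_Hm hs, if_neg (by omega), sub_zero]
    · rcases eq_or_lt_of_le (Nat.succ_le_of_lt h2) with h3 | h3
      · rw [← h3]
        change (ph w (σ s)).coeff (n + 1) - (ph w s).coeff (n + 1) = 0
        rw [h1.2]
        exact sub_self _
      · rw [h1.1.coeff h3, hs.le.coeff h3, sub_zero]

variable (σ)

/-- iterated differences -/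
noncomputable def uu (s : FreeAlgebra k X) : ℕ → FreeAlgebra k X
  | 0 => s
  | j + 1 => σ (uu s j) - uu s j

/-- rising binomial coefficients of `z` -/
noncomputable def bb (z : FreeAlgebra k X) : ℕ → FreeAlgebra k X
  | 0 => 1
  | j + 1 => ((j : k) + 1)⁻¹ • ((z + (j : FreeAlgebra k X)) * bb z j)

variable {σ}

lemma uu_Lt (hw : ∀ x, 0 < w x) (h : Uni w σ) {n : ℕ} {s : FreeAlgebra k X} (hs : Hm w n s)
    (hD : De w σ s = 0) : ∀ j, Lt w (n - (j + 1)) (uu σ s (j + 1)) := by
  intro j
  induction j with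
  | zero => exact delta_Hm hw h hs hD
  | succ j ih => exact ih.delta hw h

lemma bb_Le {z : FreeAlgebra k X} (hz : Le w 1 z) : ∀ j, Le w j (bb z j) := by
  intro j
  induction j with
  | zero => exact Hm.one.le
  | succ j ih =>
    have h1 : Le w 1 (z + (j : FreeAlgebra k X)) := by
      apply hz.add
      have : (j : FreeAlgebra k X) = algebraMap k (FreeAlgebra k X) (j : k) := by simp
      rw [this]
      exact (Hm.const _).le.mono (Nat.zero_le _)
    have h2 := h1.mul ih
    rw [add_comm 1 j] at h2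
    rw [bb, Le, map_smul]
    exact (natDegree_smul_le _ _).trans h2

lemma bb_succ {z : FreeAlgebra k X} {j : ℕ} (hj : ((j : k) + 1) ≠ 0) :
    ((j : k) + 1) • bb z (j + 1) = (z + (j : FreeAlgebra k X)) * bb z j := by
  rw [bb, smul_smul, mul_inv_cancel₀ hj, one_smul]

lemma nat_smul' (j : ℕ) (a : FreeAlgebra k X) : ((j : k) + 1) • a = ((j : FreeAlgebra k X) + 1) * a := by
  rw [Algebra.smul_def]; simp

lemma bb_step {z : FreeAlgebra k X} (hz : σ z = z + 1) : ∀ j : ℕ, (∀ i ≤ j, ((i : k) + 1) ≠ 0) →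
    z * σ (bb z j) = (z + (j : FreeAlgebra k X)) * bb z j ∧
    σ (bb z (j + 1)) = bb z (j + 1) + σ (bb z j) := by
  intro j
  have Q : ∀ j : ℕ, ((j : k) + 1) ≠ 0 → z * σ (bb z j) = (z + (j : FreeAlgebra k X)) * bb z j →
      σ (bb z (j + 1)) = bb z (j + 1) + σ (bb z j) := by
    intro j hj hP
    have h1 : ((j : k) + 1) • σ (bb z (j + 1)) = ((j : k) + 1) • (bb z (j + 1) + σ (bb z j)) := by
      rw [smul_add, bb_succ hj, ← map_smul, bb_succ hj, map_mul, map_add, hz, map_natCast, ← hP, nat_smul']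
      noncomm_ring
    have h2 := congrArg (fun a => ((j : k) + 1)⁻¹ • a) h1
    simp only [smul_smul, inv_mul_cancel₀ hj, one_smul] at h2
    exact h2
  induction j with
  | zero =>
    intro h
    have hP : z * σ (bb z 0) = (z + ((0 : ℕ) : FreeAlgebra k X)) * bb z 0 := by simp [bb]
    exact ⟨hP, Q 0 (h 0 le_rfl) hP⟩
  | succ j ih =>
    intro h
    obtain ⟨hP, hQ⟩ := ih (fun i hi => h i (by omega))
    have hP' : z * σ (bb z (j + 1)) = (z + ((j + 1 : ℕ) : FreeAlgebra k X)) * bb z (j + 1) := by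
      rw [hQ, mul_add, hP, ← bb_succ (h j (by omega)), nat_smul', add_mul]
      push_cast
      noncomm_ring
    exact ⟨hP', Q (j + 1) (h (j + 1) le_rfl) hP'⟩

/-- the invariant element with a given leading form -/
noncomputable def rr (σ : FreeAlgebra k X →ₐ[k] FreeAlgebra k X) (z s : FreeAlgebra k X) (N : ℕ) :
    FreeAlgebra k X := ∑ j ∈ Finset.range N, (-1 : FreeAlgebra k X) ^ j * (bb z j * uu σ s j)

lemma rr_step {z s : FreeAlgebra k X} (hz : σ z = z + 1) : ∀ N : ℕ, (∀ i < N, ((i : k) + 1) ≠ 0) →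
    σ (rr σ z s (N + 1)) = rr σ z s (N + 1) + (-1) ^ N * (σ (bb z N) * uu σ s (N + 1)) := by
  intro N
  induction N with
  | zero =>
    intro _
    simp [rr, bb, uu]
  | succ N ih =>
    intro h
    have h1 := ih (fun i hi => h i (by omega))
    have hQ := (bb_step hz N (fun i hi => h i (by omega))).2
    have e : rr σ z s (N + 1 + 1) = rr σ z s (N + 1) + (-1) ^ (N + 1) * (bb z (N + 1) * uu σ s (N + 1)) := by
      rw [rr, Finset.sum_range_succ]; rfl
    have eu : uu σ s (N + 1 + 1) = σ (uu σ s (N + 1)) - uu σ s (N + 1) := rfl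
    rw [e, map_add, h1, map_mul, map_mul, map_pow, map_neg, map_one, eu, hQ]
    have hc : ∀ a : FreeAlgebra k X, (-1 : FreeAlgebra k X) ^ (N + 1) * a = - ((-1) ^ N * a) := by
      intro a; rw [pow_succ]; noncomm_ring
    rw [hc, hc, hc]
    noncomm_ring

lemma uu_eq (s : FreeAlgebra k X) (j : ℕ) :
    uu σ s j = ((σ.toLinearMap - 1 : Module.End k (FreeAlgebra k X)) ^ j) s := by
  induction j with
  | zero => rfl
  | succ j ih =>
    rw [pow_succ', Module.End.mul_apply, ← ih]
    rfl

lemma pow_apply_eq (j : ℕ) (s : FreeAlgebra k X) :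
    ((σ.toLinearMap : Module.End k (FreeAlgebra k X)) ^ j) s = (σ^[j]) s := by
  rw [Module.End.pow_apply]
  rfl

lemma uu_p {p : ℕ} [Fact p.Prime] [CharP k p] (hσ : ∀ f, (σ^[p]) f = f) (s : FreeAlgebra k X) :
    uu σ s p = 0 := by
  have : CharP (Module.End k (FreeAlgebra k X)) p :=
    charP_of_injective_algebraMap (algebraMap k (Module.End k (FreeAlgebra k X))).injective p
  rw [uu_eq, sub_pow_char_of_commute p (Commute.one_right _), one_pow, LinearMap.sub_apply, pow_apply_eq, hσ]
  exact sub_self _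

lemma Lt.neg {N : ℕ} {a : FreeAlgebra k X} (ha : Lt w N a) : Lt w N (-a) := by
  intro m hm
  rw [map_neg, coeff_neg, ha m hm, neg_zero]

lemma Lt.sign {N : ℕ} {a : FreeAlgebra k X} (ha : Lt w N a) (j : ℕ) : Lt w N ((-1) ^ j * a) := by
  rcases neg_one_pow_eq_or (FreeAlgebra k X) j with h | h
  · rw [h, one_mul]; exact ha
  · rw [h, neg_one_mul]; exact ha.neg

lemma Lt.sum {ι : Type*} {N : ℕ} (s : Finset ι) (f : ι → FreeAlgebra k X) (h : ∀ i ∈ s, Lt w N (f i)) :
    Lt w N (∑ i ∈ s, f i) := by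
  intro m hm
  rw [map_sum, finsetSum_coeff]
  exact Finset.sum_eq_zero (fun i hi => h i hi m hm)

lemma rr_sub (hw : ∀ x, 0 < w x) (h : Uni w σ) {n : ℕ} {z s : FreeAlgebra k X} (hz : Le w 1 z)
    (hs : Hm w n s) (hD : De w σ s = 0) (N : ℕ) : Lt w n (rr σ z s (N + 1) - s) := by
  have e : rr σ z s (N + 1) - s = ∑ j ∈ Finset.range N, (-1 : FreeAlgebra k X) ^ (j + 1) * (bb z (j + 1) * uu σ s (j + 1)) := by
    rw [rr, Finset.sum_range_succ']
    simp [bb, uu]
  rw [e]
  apply Lt.sum
  intro j _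
  apply Lt.sign
  rcases le_or_gt (j + 1) n with hj | hj
  · have h1 := Lt.mul (bb_Le hz (j + 1)) (uu_Lt hw h hs hD j)
    rwa [Nat.sub_add_cancel hj] at h1
  · have h1 := uu_Lt hw h hs hD j
    rw [Nat.sub_eq_zero_of_le hj.le] at h1
    rw [h1.eq_zero, mul_zero]
    exact Lt.zero n

lemma De_lead (hw : ∀ x, 0 < w x) (h : Uni w σ) {n : ℕ} {r : FreeAlgebra k X} (hr : σ r = r)
    (hn : Le w n r) : De w σ ((ph w r).coeff n) = 0 := by
  cases n with
  | zero =>
    rw [(Hm_coeff r 0).eq_const hw]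
    exact De_const _
  | succ n =>
    have h0 : Le w n (r - (ph w r).coeff (n + 1)) := by
      apply Lt.le
      intro m hm
      rw [map_sub, coeff_sub, coeff_Hm (Hm_coeff r (n + 1))]
      rcases eq_or_lt_of_le hm with h2 | h2
      · rw [← h2, if_pos rfl, sub_self]
      · rw [if_neg (by omega), hn.coeff (by omega), sub_zero]
    have h1 := (lead_Le σ (h.le hw) h0).2
    rw [h.lead hw] at h1
    have h2 : (ph w (σ r)).coeff n = (ph w r).coeff n := by rw [hr]
    have h3 : (ph w (r - (ph w r).coeff (n + 1))).coeff n = (ph w r).coeff n := by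
      rw [map_sub, coeff_sub, coeff_Hm (Hm_coeff r (n + 1)), if_neg (by omega), sub_zero]
    rw [De_Hm hw h (Hm_coeff r (n + 1))]
    have h4 : σ (r - (ph w r).coeff (n + 1)) = σ r - σ ((ph w r).coeff (n + 1)) := map_sub _ _ _
    rw [h4, map_sub, coeff_sub, h2, h3] at h1
    have h5 : (ph w r).coeff n - (ph w (σ ((ph w r).coeff (n + 1)))).coeff n = (ph w r).coeff n := h1
    simpa using h5

/-- main theorem -/
theorem main {p : ℕ} [Fact p.Prime] [CharP k p] (hw : ∀ x, 0 < w x) (h : Uni w σ)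
    (hσ : ∀ f, (σ^[p]) f = f) {z : FreeAlgebra k X} (hz : σ z = z + 1) (hz1 : Le w 1 z)
    (R : Subalgebra k (FreeAlgebra k X)) (hR : ∀ f, f ∈ R ↔ σ f = f) :
    ∃ y : Ix w {De w σ} → R, Function.Bijective (FreeAlgebra.lift k y) := by
  apply free_of_leading hw R _ (De_good hw h)
  · intro r hr n hn
    rintro _ rfl
    exact De_lead hw h ((hR r).1 hr) hn
  · rintro n s ⟨hs, hsn⟩
    have hD : De w σ s = 0 := hs _ rfl
    have hp : p ≠ 0 := (Fact.out : p.Prime).ne_zero
    have e : p - 1 + 1 = p := by omega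
    have hr := rr_sub hw h hz1 hsn hD (p - 1)
    refine ⟨rr σ z s (p - 1 + 1), (hR _).2 ?_, ?_, ?_⟩
    · have h1 := rr_step (σ := σ) (s := s) hz (p - 1) (by
        intro i hi h0
        have h2 : ((i + 1 : ℕ) : k) = 0 := by push_cast; exact h0
        rw [CharP.cast_eq_zero_iff k p] at h2
        have := Nat.le_of_dvd (by omega) h2
        omega)
      have h2 : uu σ s (p - 1 + 1) = 0 := by rw [e]; exact uu_p hσ s
      rw [h2, mul_zero, mul_zero, add_zero] at h1
      exact h1
    · have h2 : Lt w (n + 1) (rr σ z s (p - 1 + 1) - s) := fun m hm => hr m (by omega)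
      have h3 := h2.le.add hsn.le
      rwa [sub_add_cancel] at h3
    · have h2 := hr n le_rfl
      rw [map_sub, coeff_sub, coeff_Hm hsn, if_pos rfl, sub_eq_zero] at h2
      exact h2

end Pool.Agent.Helper294.FGD
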